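import Pool.Agent.TH609.E3.Dat

set_option autoImplicit false

/-! The sum of the exponents. (Adapted from the starting file `W311/Z3/G4e`.) -/

open Filter Topology Pool.Agent.TH609.E3

namespace Pool.Agent.TH609.E3.W311

noncomputable section

/-- the unshifted binary exponents -/
def tt (b : ℕ) : ℝ := (tG b : ℝ) - (TO : ℕ)

/-- the part of the exponent with `log 2` -/
def ta (n b m : ℕ) : ℝ :=
  (n / 60 : ℕ) * Real.log 2 * (tt b + (m : ℝ) / (n / 60 : ℕ) * (tt (b + 1) - tt b))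

lemma al_eq {C : ℝ} {K n b m : ℕ} (hN : 0 < n / 60) :
    al C K n b m = Real.log C + K * Real.log n + n * PhiG +
      2 * ((2 * (ho b * (n / 60)) + 2 * ((ho (b + 1) - ho b) * m) : ℕ) : ℝ) * Real.log n -
      ta n b m := by
  unfold al la ta tt
  have hN' : ((n / 60 : ℕ) : ℝ) ≠ 0 := by exact_mod_cast hN.ne'
  generalize n / 60 = N at hN'
  push_cast [Nat.cast_sub (ho_le b)]
  field_simp
  ring

lemma key {n i : ℕ} : 2 * (ho (loc n i).1 * (n / 60)) +
    2 * ((ho ((loc n i).1 + 1) - ho (loc n i).1) * (loc n i).2.1) ≤ i := by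
  rcases Nat.lt_or_ge i (240 * (n / 60)) with h | h
  · obtain ⟨b, hb, h1, h2⟩ := exists_stage n i nB (by rw [ho_nB]; exact h)
    obtain ⟨x, rfl⟩ := Nat.exists_eq_add_of_le h1
    have h0 := ho_lt hb
    have e : 2 * ho (b + 1) * (n / 60) =
        2 * ho b * (n / 60) + 2 * (ho (b + 1) - ho b) * (n / 60) := by
      rw [← add_mul, ← mul_add, Nat.add_sub_cancel' h0.le]
    have hx : x < 2 * (ho (b + 1) - ho b) * (n / 60) := by omega
    rw [loc_mid hb hx]
    dsimp only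
    have h3 := Nat.mul_div_le x (2 * (ho (b + 1) - ho b))
    have e1 : 2 * ((ho (b + 1) - ho b) * (x / (2 * (ho (b + 1) - ho b)))) =
        2 * (ho (b + 1) - ho b) * (x / (2 * (ho (b + 1) - ho b))) := by ring
    have e2 : 2 * (ho b * (n / 60)) = 2 * ho b * (n / 60) := by ring
    rw [e1, e2]
    omega
  · rw [loc_top h]
    dsimp only
    rw [ho_nB]
    omega

lemma sum_div (s : ℕ) (hs : 0 < s) (N : ℕ) (f : ℕ → ℝ) :
    ∑ i ∈ Finset.range (s * N), f (i / s) = s * ∑ k ∈ Finset.range N, f k := by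
  induction N with
  | zero => simp
  | succ N ih =>
    rw [Nat.mul_succ, Finset.sum_range_add, ih, Finset.sum_range_succ, mul_add]
    congr 1
    have : ∀ x ∈ Finset.range s, f ((s * N + x) / s) = f N := by
      intro x hx
      rw [Finset.mem_range] at hx
      rw [Nat.mul_add_div hs, Nat.div_eq_of_lt hx, add_zero]
    rw [Finset.sum_congr rfl this, Finset.sum_const, Finset.card_range, nsmul_eq_mul]

lemma sum_k (S : ℕ) : 2 * ∑ k ∈ Finset.range S, (k : ℝ) = (S : ℝ) * (S - 1) := by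
  induction S with
  | zero => simp
  | succ S ih =>
    rw [Finset.sum_range_succ, mul_add, ih]
    push_cast
    ring

lemma block (s : ℕ) (hs : 0 < s) (N : ℕ) (hN : 0 < N) (t t' : ℝ) :
    2 * ∑ i ∈ Finset.range (s * N), (t + ((i / s : ℕ) : ℝ) / (N : ℝ) * (t' - t)) =
      s * (N * (t + t') - (t' - t)) := by
  have hN' : (0 : ℝ) < N := by exact_mod_cast hN
  rw [sum_div s hs N (fun k => t + (k : ℝ) / N * (t' - t)), Finset.sum_add_distrib, Finset.sum_const,
    Finset.card_range, nsmul_eq_mul, ← Finset.sum_mul, ← Finset.sum_div]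
  have e1 : 2 * ((s : ℝ) * ((N : ℝ) * t + (∑ k ∈ Finset.range N, (k : ℝ)) / N * (t' - t))) =
      s * (2 * (N * t) + (2 * ∑ k ∈ Finset.range N, (k : ℝ)) / N * (t' - t)) := by ring
  rw [e1, sum_k]
  field_simp
  ring

lemma block_ta {n b : ℕ} (hb : b < nB) (hN : 0 < n / 60) :
    ∑ x ∈ Finset.range (2 * (ho (b + 1) - ho b) * (n / 60)),
      ta n (loc n (2 * ho b * (n / 60) + x)).1 (loc n (2 * ho b * (n / 60) + x)).2.1 =
      (n / 60 : ℕ) * Real.log 2 * (((ho (b + 1) : ℝ) - ho b) *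
        ((n / 60 : ℕ) * (tt b + tt (b + 1)) - (tt (b + 1) - tt b))) := by
  have h0 := ho_lt hb
  have e : ∀ x ∈ Finset.range (2 * (ho (b + 1) - ho b) * (n / 60)),
      ta n (loc n (2 * ho b * (n / 60) + x)).1 (loc n (2 * ho b * (n / 60) + x)).2.1 =
        (n / 60 : ℕ) * Real.log 2 *
        (tt b + ((x / (2 * (ho (b + 1) - ho b)) : ℕ) : ℝ) / ((n / 60 : ℕ) : ℝ) * (tt (b + 1) - tt b)) := by
    intro x hx
    rw [Finset.mem_range] at hx
    rw [loc_mid hb hx]
    rfl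
  rw [Finset.sum_congr rfl e, ← Finset.mul_sum]
  have h1 := block (2 * (ho (b + 1) - ho b)) (by omega) (n / 60) hN (tt b) (tt (b + 1))
  have e2 : ((2 * (ho (b + 1) - ho b) : ℕ) : ℝ) = 2 * ((ho (b + 1) : ℝ) - ho b) := by
    push_cast [Nat.cast_sub h0.le]
    ring
  rw [e2] at h1
  congr 1
  linarith

/-- the linear correction -/
def EE : ℝ := ∑ b ∈ Finset.range nB, ((ho (b + 1) : ℝ) - ho b) * (tt (b + 1) - tt b)

lemma SS_cast : (SS : ℝ) = ∑ b ∈ Finset.range nB, ((ho (b + 1) : ℝ) - ho b) * (tt b + tt (b + 1)) := by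
  rw [SS_eq]
  push_cast
  rfl

lemma sum_ta {n : ℕ} (hN : 0 < n / 60) :
    ∑ i ∈ Finset.range (240 * (n / 60)), ta n (loc n i).1 (loc n i).2.1 =
      (SS * (n / 60 : ℕ) - EE) * ((n / 60 : ℕ) * Real.log 2) := by
  have h : ∀ B : ℕ, B ≤ nB → ∑ i ∈ Finset.range (2 * ho B * (n / 60)), ta n (loc n i).1 (loc n i).2.1 =
      ∑ b ∈ Finset.range B, (n / 60 : ℕ) * Real.log 2 * (((ho (b + 1) : ℝ) - ho b) *
        ((n / 60 : ℕ) * (tt b + tt (b + 1)) - (tt (b + 1) - tt b))) := by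
    intro B
    induction B with
    | zero =>
      intro _
      rw [ho_zero]
      simp
    | succ B ih =>
      intro hB
      have h0 := ho_lt (b := B) (by omega)
      have e : 2 * ho (B + 1) * (n / 60) =
          2 * ho B * (n / 60) + 2 * (ho (B + 1) - ho B) * (n / 60) := by
        rw [← add_mul, ← mul_add, Nat.add_sub_cancel' h0.le]
      rw [e, Finset.sum_range_add, ih (by omega), Finset.sum_range_succ, block_ta (by omega) hN]
  have h1 := h nB le_rfl
  rw [ho_nB] at h1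
  have e : 240 * (n / 60) = 2 * 120 * (n / 60) := by ring
  rw [e, h1, SS_cast, EE, Finset.sum_mul, ← Finset.sum_sub_distrib, Finset.sum_mul]
  apply Finset.sum_congr rfl
  intro b _
  ring

lemma ta_top (n : ℕ) {i : ℕ} (h : 240 * (n / 60) ≤ i) :
    -((TO : ℕ) : ℝ) * n ≤ ta n (loc n i).1 (loc n i).2.1 := by
  rw [loc_top h]
  unfold ta
  dsimp only
  rw [Nat.cast_zero, zero_div, zero_mul, add_zero]
  have h1 : -((TO : ℕ) : ℝ) ≤ tt nB := by
    unfold tt
    have : (0 : ℝ) ≤ (tG nB : ℝ) := Nat.cast_nonneg _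
    linarith
  have h2 : 0 ≤ ((n / 60 : ℕ) : ℝ) * Real.log 2 :=
    mul_nonneg (Nat.cast_nonneg _) (Real.log_nonneg (by norm_num))
  have h3 : ((n / 60 : ℕ) : ℝ) * Real.log 2 ≤ n := by
    have h4 : ((n / 60 : ℕ) : ℝ) ≤ n := by exact_mod_cast Nat.div_le_self n 60
    have h5 : Real.log 2 ≤ 1 := by
      have := Real.log_two_lt_d9
      linarith
    calc ((n / 60 : ℕ) : ℝ) * Real.log 2 ≤ n * 1 :=
          mul_le_mul h4 h5 (Real.log_nonneg (by norm_num)) (Nat.cast_nonneg _)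
      _ = n := mul_one _
  have h6 : (0 : ℝ) ≤ ((TO : ℕ) : ℝ) := Nat.cast_nonneg _
  calc -((TO : ℕ) : ℝ) * n ≤ -((TO : ℕ) : ℝ) * (((n / 60 : ℕ) : ℝ) * Real.log 2) := by
        have := mul_le_mul_of_nonneg_left h3 h6
        linarith
    _ ≤ tt nB * (((n / 60 : ℕ) : ℝ) * Real.log 2) := mul_le_mul_of_nonneg_right h1 h2
    _ = _ := by ring

lemma sum_al {C : ℝ} {K n : ℕ} (hn : 60 ≤ n) :
    ∑ i ∈ Finset.range (4 * n), al C K n (loc n i).1 (loc n i).2.1 ≤
      4 * n * (Real.log C + K * Real.log n + n * PhiG) +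
      16 * (n : ℝ) ^ 2 * Real.log n - (SS * (n / 60 : ℕ) - EE) * ((n / 60 : ℕ) * Real.log 2) +
      240 * ((TO : ℕ) : ℝ) * n := by
  have hN : 0 < n / 60 := by omega
  have hl : 0 ≤ Real.log n := Real.log_natCast_nonneg n
  have h1 : ∀ i ∈ Finset.range (4 * n), al C K n (loc n i).1 (loc n i).2.1 ≤
      (Real.log C + K * Real.log n + n * PhiG) + 2 * (i : ℝ) * Real.log n -
      ta n (loc n i).1 (loc n i).2.1 := by
    intro i _
    rw [al_eq hN]
    have h := key (n := n) (i := i)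
    have h' : ((2 * (ho (loc n i).1 * (n / 60)) +
      2 * ((ho ((loc n i).1 + 1) - ho (loc n i).1) * (loc n i).2.1) : ℕ) : ℝ) ≤ i := by
      exact_mod_cast h
    have := mul_le_mul_of_nonneg_right h' hl
    linarith
  have h2 := Finset.sum_le_sum h1
  rw [Finset.sum_sub_distrib, Finset.sum_add_distrib, Finset.sum_const, Finset.card_range,
    nsmul_eq_mul] at h2
  have hsplit : 4 * n = 240 * (n / 60) + (4 * n - 240 * (n / 60)) := by omega
  have h4 : (SS * (n / 60 : ℕ) - EE) * ((n / 60 : ℕ) * Real.log 2) - 240 * ((TO : ℕ) : ℝ) * n ≤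
      ∑ i ∈ Finset.range (4 * n), ta n (loc n i).1 (loc n i).2.1 := by
    rw [← sum_ta hN, hsplit, Finset.sum_range_add]
    have h5 : ∀ x ∈ Finset.range (4 * n - 240 * (n / 60)), -((TO : ℕ) : ℝ) * n ≤
        ta n (loc n (240 * (n / 60) + x)).1 (loc n (240 * (n / 60) + x)).2.1 := by
      intro x _
      exact ta_top n (by omega)
    have h6 := Finset.sum_le_sum h5
    rw [Finset.sum_const, Finset.card_range, nsmul_eq_mul] at h6
    have h7 : ((4 * n - 240 * (n / 60) : ℕ) : ℝ) ≤ 240 := by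
      exact_mod_cast (by omega : 4 * n - 240 * (n / 60) ≤ 240)
    have h8 : (0 : ℝ) ≤ ((TO : ℕ) : ℝ) * n := by positivity
    have h9 := mul_le_mul_of_nonneg_right h7 h8
    linarith
  have h3 : ∑ i ∈ Finset.range (4 * n), 2 * (i : ℝ) * Real.log n ≤
      16 * (n : ℝ) ^ 2 * Real.log n := by
    have e1 : ∑ i ∈ Finset.range (4 * n), 2 * (i : ℝ) * Real.log n =
        (2 * ∑ i ∈ Finset.range (4 * n), (i : ℝ)) * Real.log n := by
      rw [← Finset.sum_mul, ← Finset.mul_sum]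
    rw [e1, sum_k]
    apply mul_le_mul_of_nonneg_right _ hl
    push_cast
    have : (0 : ℝ) ≤ (n : ℝ) := by positivity
    nlinarith
  push_cast at h2
  push_cast at h4 ⊢
  linarith

lemma final_ev (c : ℝ) (K : ℕ) (ε : ℝ) (hε : 0 < ε) :
    ∀ᶠ n : ℕ in atTop, 4 * (n : ℝ) * (c + K * Real.log n) ≤ ε * (n : ℝ) ^ 2 := by
  have h1 : Tendsto (fun n : ℕ => Real.log (n : ℝ) / n) atTop (𝓝 0) := by
    have := Real.isLittleO_log_id_atTop.tendsto_div_nhds_zero
    exact this.comp tendsto_natCast_atTop_atTop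
  have h2 : Tendsto (fun n : ℕ => c / (n : ℝ)) atTop (𝓝 0) := tendsto_const_div_atTop_nhds_zero_nat c
  have h3 : Tendsto (fun n : ℕ => 4 * (c / (n : ℝ) + K * (Real.log (n : ℝ) / n))) atTop (𝓝 0) := by
    have := (h2.add (h1.const_mul (K : ℝ))).const_mul 4
    simpa using this
  have h4 := h3.eventually (gt_mem_nhds hε)
  filter_upwards [h4, eventually_gt_atTop 0] with n hn hn0
  have hn' : (0 : ℝ) < n := by exact_mod_cast hn0
  have e : 4 * (n : ℝ) * (c + K * Real.log n) = 4 * (c / (n : ℝ) + K * (Real.log (n : ℝ) / n)) * (n : ℝ) ^ 2 := by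
    field_simp
  rw [e]
  exact mul_le_mul_of_nonneg_right hn.le (by positivity)

/-- Part G4e. -/
theorem G4e : StG4e := by
  intro C K hC ε hε
  filter_upwards [final_ev (|Real.log C| + (SS : ℝ) + |EE| + 60 * ((TO : ℕ) : ℝ)) K ε hε,
    eventually_ge_atTop 60] with n hn hn60
  have hN : 0 < n / 60 := by omega
  have h := sum_al (C := C) (K := K) hn60
  refine h.trans ?_
  have hl2 : 0 ≤ Real.log 2 := Real.log_nonneg (by norm_num)
  have hl2' : Real.log 2 ≤ 1 := by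
    have := Real.log_two_lt_d9
    linarith
  have hn0 : (60 : ℝ) ≤ n := by exact_mod_cast hn60
  have hS0 : (0 : ℝ) ≤ (SS : ℝ) := by exact_mod_cast SS_nonneg
  generalize (SS : ℝ) = S at hS0 hn ⊢
  generalize EE = E at hn ⊢
  generalize ((TO : ℕ) : ℝ) = T at hn ⊢
  have b1 : (n : ℝ) - 59 ≤ 60 * ((n / 60 : ℕ) : ℝ) := by
    have : n ≤ 60 * (n / 60) + 59 := by omega
    have h' : (n : ℝ) ≤ ((60 * (n / 60) + 59 : ℕ) : ℝ) := by exact_mod_cast this
    push_cast at h'
    push_cast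
    linarith
  have b2 : 60 * ((n / 60 : ℕ) : ℝ) ≤ n := by
    have : 60 * (n / 60) ≤ n := by omega
    have h' : ((60 * (n / 60) : ℕ) : ℝ) ≤ (n : ℝ) := by exact_mod_cast this
    push_cast at h'
    push_cast
    linarith
  generalize ((n / 60 : ℕ) : ℝ) = N at b1 b2 ⊢
  have hN0 : 0 ≤ N := by linarith
  -- lower bound of `S N² - E N`
  have d1 : (n : ℝ) ^ 2 - 118 * n ≤ 3600 * N ^ 2 := by
    have d0 : ((n : ℝ) - 59) ^ 2 ≤ (60 * N) ^ 2 := pow_le_pow_left₀ (by linarith) b1 2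
    nlinarith
  have c1 : S / 3600 * (n : ℝ) ^ 2 - S * n ≤ S * N ^ 2 := by
    have d2 : (n : ℝ) ^ 2 / 3600 - n ≤ N ^ 2 := by linarith
    have d3 := mul_le_mul_of_nonneg_left d2 hS0
    linarith
  have c2 : E * N ≤ |E| * n := by
    calc E * N ≤ |E| * N := mul_le_mul_of_nonneg_right (le_abs_self E) hN0
      _ ≤ |E| * n := mul_le_mul_of_nonneg_left (by linarith) (abs_nonneg E)
  have c3 : S / 3600 * (n : ℝ) ^ 2 - (S + |E|) * n ≤ (S * N - E) * N := by
    have e : (S * N - E) * N = S * N ^ 2 - E * N := by ring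
    rw [e]
    linarith
  have c4 : (S / 3600 * (n : ℝ) ^ 2 - (S + |E|) * n) * Real.log 2 ≤ (S * N - E) * N * Real.log 2 :=
    mul_le_mul_of_nonneg_right c3 hl2
  have c5 : (S + |E|) * (n : ℝ) * Real.log 2 ≤ (S + |E|) * n := by
    have h0 : 0 ≤ (S + |E|) * (n : ℝ) := by positivity
    calc (S + |E|) * (n : ℝ) * Real.log 2 ≤ (S + |E|) * (n : ℝ) * 1 :=
          mul_le_mul_of_nonneg_left hl2' h0
      _ = _ := mul_one _
  have c6 : 4 * (n : ℝ) * Real.log C ≤ 4 * n * |Real.log C| := by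
    have h1 : Real.log C ≤ |Real.log C| := le_abs_self _
    exact mul_le_mul_of_nonneg_left h1 (by linarith)
  have c7 : 0 ≤ (S + |E|) * (n : ℝ) := by positivity
  have e1 : (S / 3600 * (n : ℝ) ^ 2 - (S + |E|) * n) * Real.log 2 =
      S / 3600 * Real.log 2 * (n : ℝ) ^ 2 - (S + |E|) * n * Real.log 2 := by ring
  rw [e1] at c4
  have e2 : 4 * (n : ℝ) * (|Real.log C| + S + |E| + 60 * T + K * Real.log n) =
      4 * n * |Real.log C| + 4 * ((S + |E|) * n) + 240 * T * n + 4 * n * (K * Real.log n) := by ring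
  rw [e2] at hn
  have e3 : (S * N - E) * (N * Real.log 2) = (S * N - E) * N * Real.log 2 := by ring
  rw [e3]
  have e4 : 4 * (n : ℝ) * (Real.log C + K * Real.log n + n * PhiG) =
      4 * n * Real.log C + 4 * n * (K * Real.log n) + 4 * PhiG * (n : ℝ) ^ 2 := by ring
  rw [e4]
  have e5 : (4 * PhiG - S / 3600 * Real.log 2 + ε) * (n : ℝ) ^ 2 =
      4 * PhiG * (n : ℝ) ^ 2 - S / 3600 * Real.log 2 * (n : ℝ) ^ 2 + ε * (n : ℝ) ^ 2 := by ring
  rw [e5]
  linarith

end

end Pool.Agent.TH609.E3.W311
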